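import Mathlib

/-!
# Perfect restricted bases: definition
-/

namespace MPc73f8e

/-- A finite set `A` in an abelian group is a perfect restricted `s`-basis when every element of the
group is the sum of the elements of exactly one subset of `A` with at most `s` elements. -/
def IsPerfectBasis {G : Type*} [AddCommGroup G] (s : ℕ) (A : Finset G) : Prop :=
  ∀ g : G, ∃! B : Finset G, B ⊆ A ∧ B.card ≤ s ∧ ∑ b ∈ B, b = g

end MPc73f8e
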