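import Mathlib
import Pool.Agent.Work.MP_c73f8e_nt.Defs

/-!
# Perfect restricted bases of size `2s+1`: the combinatorial core
-/

namespace MPc73f8e

open Finset

variable {G : Type*} [AddCommGroup G] [DecidableEq G]

section

variable {s : ℕ} {A : Finset G}

theorem uniq (h : IsPerfectBasis s A) {B C : Finset G} (hB : B ⊆ A) (hC : C ⊆ A)
    (hBs : B.card ≤ s) (hCs : C.card ≤ s) (e : ∑ b ∈ B, b = ∑ b ∈ C, b) : B = C :=
  (h (∑ b ∈ C, b)).unique ⟨hB, hBs, e⟩ ⟨hC, hCs, rfl⟩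

theorem disj_eq (h : IsPerfectBasis s A) {B C : Finset G} (hB : B ⊆ A) (hC : C ⊆ A)
    (hBs : B.card ≤ s) (hCs : C.card ≤ s) (hd : Disjoint B C) (e : ∑ b ∈ B, b = ∑ b ∈ C, b) :
    B = ∅ := by
  have := uniq h hB hC hBs hCs e
  subst this
  exact disjoint_self.1 hd

/-- uniqueness of the large representation -/
theorem uniq_large (h : IsPerfectBasis s A) (hA : A.card = 2 * s + 1) {B C : Finset G}
    (hB : B ⊆ A) (hC : C ⊆ A) (hBs : s + 1 ≤ B.card) (hCs : s + 1 ≤ C.card)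
    (e : ∑ b ∈ B, b = ∑ b ∈ C, b) : B = C := by
  have h1 : (A \ B).card ≤ s := by rw [Finset.card_sdiff_of_subset hB]; omega
  have h2 : (A \ C).card ≤ s := by rw [Finset.card_sdiff_of_subset hC]; omega
  have e1 := Finset.sum_sdiff hB (f := fun x : G => x)
  have e2 := Finset.sum_sdiff hC (f := fun x : G => x)
  have e3 : ∑ b ∈ A \ B, b = ∑ b ∈ A \ C, b := by
    have : ∑ b ∈ A \ B, b + ∑ b ∈ B, b = ∑ b ∈ A \ C, b + ∑ b ∈ C, b := by rw [e1, e2]
    rw [e] at this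
    exact add_right_cancel this
  have h3 := uniq h Finset.sdiff_subset Finset.sdiff_subset h1 h2 e3
  have h4 : A \ (A \ B) = A \ (A \ C) := by rw [h3]
  rwa [Finset.sdiff_sdiff_eq_self hB, Finset.sdiff_sdiff_eq_self hC] at h4

/-- the complement of an `s`-subset has its small representation inside the `s`-subset -/
theorem exists_M (h : IsPerfectBasis s A) (hA : A.card = 2 * s + 1) {Q : Finset G} (hQ : Q ⊆ A)
    (hQs : Q.card = s) : ∃ M ⊆ Q, ∑ b ∈ Q, b + ∑ b ∈ M, b = ∑ b ∈ A, b := by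
  obtain ⟨N, ⟨hNA, hNs, hN⟩, -⟩ := h (∑ b ∈ A \ Q, b)
  have hc : (A \ Q).card = s + 1 := by rw [Finset.card_sdiff_of_subset hQ]; omega
  by_cases hdis : N ∩ (A \ Q) = ∅
  · refine ⟨N, ?_, ?_⟩
    · intro x hx
      by_contra hxQ
      have : x ∈ N ∩ (A \ Q) := by
        rw [Finset.mem_inter, Finset.mem_sdiff]
        exact ⟨hx, hNA hx, hxQ⟩
      rw [hdis] at this
      exact absurd this (Finset.notMem_empty x)
    · rw [hN, add_comm]
      exact Finset.sum_sdiff hQ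
  · exfalso
    obtain ⟨c, hc0⟩ := Finset.nonempty_iff_ne_empty.2 hdis
    set C := N ∩ (A \ Q) with hC
    have hCN : C ⊆ N := Finset.inter_subset_left
    have hCQ : C ⊆ A \ Q := Finset.inter_subset_right
    have hCc : 1 ≤ C.card := Finset.card_pos.2 ⟨c, hc0⟩
    have e1 := Finset.sum_sdiff hCN (f := fun x : G => x)
    have e2 := Finset.sum_sdiff hCQ (f := fun x : G => x)
    have e3 : ∑ b ∈ N \ C, b = ∑ b ∈ (A \ Q) \ C, b := by
      have : ∑ b ∈ N \ C, b + ∑ b ∈ C, b = ∑ b ∈ (A \ Q) \ C, b + ∑ b ∈ C, b := by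
        rw [e1, e2, hN]
      exact add_right_cancel this
    have hd : Disjoint ((A \ Q) \ C) (N \ C) := by
      rw [Finset.disjoint_left]
      intro x hx hx'
      rw [Finset.mem_sdiff] at hx hx'
      apply hx.2
      rw [hC, Finset.mem_inter]
      exact ⟨hx'.1, hx.1⟩
    have h5 := disj_eq h (Finset.sdiff_subset.trans Finset.sdiff_subset)
      (Finset.sdiff_subset.trans hNA)
      (by rw [Finset.card_sdiff_of_subset hCQ]; omega)
      (by rw [Finset.card_sdiff_of_subset hCN]; omega) hd e3.symm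
    have h6 : (A \ Q) ⊆ C := Finset.sdiff_eq_empty_iff_subset.1 h5
    have h7 := Finset.card_le_card (h6.trans hCN)
    omega

/-- `R` is the defect set of the partition `A = {i} ∪ Q ∪ Q'` -/
def Rel (A : Finset G) (i : G) (Q R : Finset G) : Prop :=
  R ⊆ A.erase i ∧ ∑ b ∈ Q, b + ∑ b ∈ Q \ R, b = ∑ b ∈ A, b ∧
    ∑ b ∈ A.erase i \ Q, b + ∑ b ∈ (A.erase i \ Q) \ R, b = ∑ b ∈ A, b

theorem card_E (hA : A.card = 2 * s + 1) {i : G} (hi : i ∈ A) : (A.erase i).card = 2 * s := by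
  rw [Finset.card_erase_of_mem hi]; omega

theorem exists_R (h : IsPerfectBasis s A) (hA : A.card = 2 * s + 1) {i : G} (hi : i ∈ A)
    {Q : Finset G} (hQ : Q ⊆ A.erase i) (hQs : Q.card = s) : ∃ R, Rel A i Q R := by
  have hE := card_E hA hi
  have hEA : A.erase i ⊆ A := Finset.erase_subset i A
  have hQ's : (A.erase i \ Q).card = s := by rw [Finset.card_sdiff_of_subset hQ]; omega
  obtain ⟨M, hM, e1⟩ := exists_M h hA (hQ.trans hEA) hQs
  obtain ⟨M', hM', e2⟩ := exists_M h hA (Finset.sdiff_subset.trans hEA) hQ's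
  refine ⟨(Q \ M) ∪ ((A.erase i \ Q) \ M'), ?_, ?_, ?_⟩
  · apply Finset.union_subset
    · exact Finset.sdiff_subset.trans hQ
    · exact Finset.sdiff_subset.trans Finset.sdiff_subset
  · have : Q \ ((Q \ M) ∪ ((A.erase i \ Q) \ M')) = M := by
      ext x
      simp only [Finset.mem_sdiff, Finset.mem_union, not_or, not_and, not_not]
      constructor
      · rintro ⟨h1, h2, -⟩
        exact h2 h1
      · intro hx
        exact ⟨hM hx, fun _ => hx, fun h3 => absurd (hM hx) h3.2⟩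
    rw [this, e1]
  · have : (A.erase i \ Q) \ ((Q \ M) ∪ ((A.erase i \ Q) \ M')) = M' := by
      ext x
      simp only [Finset.mem_sdiff, Finset.mem_union, not_or, not_and, not_not]
      constructor
      · rintro ⟨h1, -, h2⟩
        exact h2 h1
      · intro hx
        have h4 := hM' hx
        rw [Finset.mem_sdiff] at h4
        exact ⟨h4, fun h3 => absurd h3 h4.2, fun _ => hx⟩
    rw [this, e2]

theorem Rel.compl {i : G} {Q R : Finset G} (hQ : Q ⊆ A.erase i) (h : Rel A i Q R) :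
    Rel A i (A.erase i \ Q) R := by
  refine ⟨h.1, h.2.2, ?_⟩
  rw [Finset.sdiff_sdiff_eq_self hQ]
  exact h.2.1

theorem Rel.sum {i : G} (hi : i ∈ A) {Q R : Finset G} (hQ : Q ⊆ A.erase i) (h : Rel A i Q R) :
    i + i + ∑ b ∈ R, b = 0 := by
  obtain ⟨hR, e1, e2⟩ := h
  have e3 := Finset.sum_sdiff hQ (f := fun x : G => x)
  have e4 : i + ∑ b ∈ A.erase i, b = ∑ b ∈ A, b := Finset.add_sum_erase A (fun x => x) hi
  have e5 : ∑ b ∈ R, b = ∑ b ∈ Q ∩ R, b + ∑ b ∈ (A.erase i \ Q) ∩ R, b := by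
    rw [← Finset.sum_union]
    · congr 1
      ext x
      simp only [Finset.mem_union, Finset.mem_inter, Finset.mem_sdiff]
      constructor
      · intro hx
        by_cases hxQ : x ∈ Q
        · exact Or.inl ⟨hxQ, hx⟩
        · exact Or.inr ⟨⟨hR hx, hxQ⟩, hx⟩
      · rintro (h | h)
        · exact h.2
        · exact h.2
    · rw [Finset.disjoint_left]
      intro x hx hx'
      rw [Finset.mem_inter] at hx hx'
      exact (Finset.mem_sdiff.1 hx'.1).2 hx.1
  have e6 : ∑ b ∈ Q ∩ R, b + ∑ b ∈ Q \ R, b = ∑ b ∈ Q, b := Finset.sum_inter_add_sum_sdiff Q R _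
  have e7 : ∑ b ∈ (A.erase i \ Q) ∩ R, b + ∑ b ∈ (A.erase i \ Q) \ R, b =
      ∑ b ∈ A.erase i \ Q, b := Finset.sum_inter_add_sum_sdiff _ R _
  rw [e5]
  have e8 : ∑ b ∈ Q ∩ R, b = ∑ b ∈ Q, b - ∑ b ∈ Q \ R, b := by rw [← e6]; abel
  have e9 : ∑ b ∈ (A.erase i \ Q) ∩ R, b = ∑ b ∈ A.erase i \ Q, b -
      ∑ b ∈ (A.erase i \ Q) \ R, b := by rw [← e7]; abel
  have e10 : ∑ b ∈ Q \ R, b = ∑ b ∈ A, b - ∑ b ∈ Q, b := by rw [← e1]; abel
  have e11 : ∑ b ∈ (A.erase i \ Q) \ R, b = ∑ b ∈ A, b - ∑ b ∈ A.erase i \ Q, b := by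
    rw [← e2]; abel
  rw [e8, e9, e10, e11, ← e4, ← e3]
  abel

/-- a swap inside `R` is impossible -/
theorem swap_false {Q R : Finset G} {j k : G} {S : G} (hj : j ∈ Q) (hk : k ∉ Q) (hjR : j ∈ R)
    (hkR : k ∈ R) (e1 : ∑ b ∈ Q, b + ∑ b ∈ Q \ R, b = S)
    (e2 : ∑ b ∈ insert k (Q.erase j), b + ∑ b ∈ insert k (Q.erase j) \ R, b = S) : False := by
  have h1 : insert k (Q.erase j) \ R = Q \ R := by
    ext x
    simp only [Finset.mem_sdiff, Finset.mem_insert, Finset.mem_erase]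
    constructor
    · rintro ⟨h | h, h'⟩
      · exact absurd (h ▸ hkR) h'
      · exact ⟨h.2, h'⟩
    · rintro ⟨h, h'⟩
      exact ⟨Or.inr ⟨fun e => h' (e ▸ hjR), h⟩, h'⟩
  rw [h1] at e2
  have h2 : ∑ b ∈ Q, b = ∑ b ∈ insert k (Q.erase j), b := by
    apply add_right_cancel (b := ∑ b ∈ Q \ R, b)
    rw [e1, e2]
  have hk' : k ∉ Q.erase j := fun h => hk (Finset.mem_of_mem_erase h)
  rw [Finset.sum_insert hk', ← Finset.add_sum_erase Q (fun x => x) hj] at h2
  have h3 : j = k := add_right_cancel h2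
  exact hk (h3 ▸ hj)

end

end MPc73f8e
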