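import Mathlib
import Pool.Agent.Work.MP_c73f8e_nt.Defs
import Pool.Agent.Work.MP_c73f8e_nt.Core

/-!
# The dichotomy: `2a = 0` or a single defect set
-/

namespace MPc73f8e

open Finset

variable {G : Type*} [AddCommGroup G] [DecidableEq G]

/-- choose an `s`-subset of `E` containing `j` and avoiding `k` -/
theorem exists_sub {α : Type*} [DecidableEq α] {E : Finset α} {s : ℕ} (hE : E.card = 2 * s)
    (hs : 1 ≤ s) {j k : α} (hj : j ∈ E) (hk : k ∈ E) (hjk : j ≠ k) :
    ∃ Q ⊆ E, Q.card = s ∧ j ∈ Q ∧ k ∉ Q := by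
  have h1 : s - 1 ≤ ((E.erase j).erase k).card := by
    rw [Finset.card_erase_of_mem, Finset.card_erase_of_mem hj]
    · omega
    · rw [Finset.mem_erase]; exact ⟨hjk.symm, hk⟩
  obtain ⟨C, hC, hCc⟩ := Finset.exists_subset_card_eq h1
  have hjC : j ∉ C := fun h => by
    have := hC h
    simp only [Finset.mem_erase] at this
    exact this.2.1 rfl
  have hkC : k ∉ C := fun h => by
    have := hC h
    simp only [Finset.mem_erase] at this
    exact this.1 rfl
  refine ⟨insert j C, ?_, ?_, Finset.mem_insert_self _ _, ?_⟩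
  · intro x hx
    rcases Finset.mem_insert.1 hx with h | h
    · exact h ▸ hj
    · exact Finset.mem_of_mem_erase (Finset.mem_of_mem_erase (hC h))
  · rw [Finset.card_insert_of_notMem hjC, hCc]; omega
  · intro h
    rcases Finset.mem_insert.1 h with h | h
    · exact hjk h.symm
    · exact hkC h

/-- Exchange lemma: mixing the two defect sets along a swap is impossible. -/
theorem mix_false {s : ℕ} {A : Finset G} (h : IsPerfectBasis s A) {Q R₁ R₂ : Finset G} {k x : G}
    {S : G} (hQ : Q ⊆ A) (hQs : Q.card = s) (hxA : x ∈ A) (hx : x ∉ Q) (hxR : x ∈ R₁)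
    (hk : k ∈ Q) (hk1 : k ∉ R₁) (hk2 : k ∈ R₂)
    (e2 : ∑ b ∈ Q, b + ∑ b ∈ Q \ R₂, b = S)
    (e1 : ∑ b ∈ insert x (Q.erase k), b + ∑ b ∈ insert x (Q.erase k) \ R₁, b = S) : False := by
  have hxk : x ≠ k := fun e => hx (e ▸ hk)
  have hx' : x ∉ Q.erase k := fun h => hx (Finset.mem_of_mem_erase h)
  have h1 : insert x (Q.erase k) \ R₁ = (Q \ R₁).erase k := by
    ext y
    simp only [Finset.mem_sdiff, Finset.mem_insert, Finset.mem_erase]
    constructor
    · rintro ⟨h | h, h'⟩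
      · exact absurd (h ▸ hxR) h'
      · exact ⟨h.1, h.2, h'⟩
    · rintro ⟨h, h', h''⟩
      exact ⟨Or.inr ⟨h, h'⟩, h''⟩
  have hkQ : k ∈ Q \ R₁ := Finset.mem_sdiff.2 ⟨hk, hk1⟩
  rw [h1, Finset.sum_insert hx'] at e1
  have e3 := Finset.add_sum_erase Q (fun x => x) hk
  have e4 := Finset.add_sum_erase (Q \ R₁) (fun x => x) hkQ
  -- decompositions
  have e5 : ∑ b ∈ Q \ R₂, b = ∑ b ∈ (Q ∩ R₁) \ R₂, b + ∑ b ∈ (Q \ R₁) \ R₂, b := by
    rw [← Finset.sum_union]
    · congr 1
      ext y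
      simp only [Finset.mem_sdiff, Finset.mem_union, Finset.mem_inter]
      tauto
    · rw [Finset.disjoint_left]
      intro y hy hy'
      simp only [Finset.mem_sdiff, Finset.mem_inter] at hy hy'
      exact hy'.1.2 hy.1.2
  have e6 : ∑ b ∈ (Q \ R₁).erase k, b = ∑ b ∈ ((Q ∩ R₂) \ R₁).erase k, b +
      ∑ b ∈ (Q \ R₁) \ R₂, b := by
    rw [← Finset.sum_union]
    · congr 1
      ext y
      simp only [Finset.mem_sdiff, Finset.mem_union, Finset.mem_inter, Finset.mem_erase]
      constructor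
      · rintro ⟨h, h', h''⟩
        by_cases hy : y ∈ R₂
        · exact Or.inl ⟨h, ⟨h', hy⟩, h''⟩
        · exact Or.inr ⟨⟨h', h''⟩, hy⟩
      · rintro (⟨h, h', h''⟩ | ⟨⟨h, h'⟩, h''⟩)
        · exact ⟨h, h'.1, h''⟩
        · exact ⟨fun e => h'' (e ▸ hk2), h, h'⟩
    · rw [Finset.disjoint_left]
      intro y hy hy'
      simp only [Finset.mem_sdiff, Finset.mem_inter, Finset.mem_erase] at hy hy'
      exact hy'.2 hy.2.1.2
  have hkn : k ∉ (Q ∩ R₁) \ R₂ := fun hh => (Finset.mem_sdiff.1 hh).2 hk2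
  have hxn : x ∉ ((Q ∩ R₂) \ R₁).erase k := fun hh => by
    simp only [Finset.mem_sdiff, Finset.mem_inter, Finset.mem_erase] at hh
    exact hx hh.2.1.1
  have e7 : ∑ b ∈ insert k ((Q ∩ R₁) \ R₂), b = ∑ b ∈ insert x (((Q ∩ R₂) \ R₁).erase k), b := by
    rw [Finset.sum_insert hkn, Finset.sum_insert hxn]
    have e8 : ∑ b ∈ Q, b + ∑ b ∈ Q \ R₂, b =
        x + ∑ b ∈ Q.erase k, b + ∑ b ∈ (Q \ R₁).erase k, b := by rw [e2, e1]
    rw [e5, e6, ← e3] at e8
    have e9 : k + ∑ b ∈ (Q ∩ R₁) \ R₂, b + (∑ b ∈ Q.erase k, b + ∑ b ∈ (Q \ R₁) \ R₂, b) =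
        x + ∑ b ∈ ((Q ∩ R₂) \ R₁).erase k, b + (∑ b ∈ Q.erase k, b + ∑ b ∈ (Q \ R₁) \ R₂, b) := by
      calc _ = k + ∑ b ∈ Q.erase k, b + (∑ b ∈ (Q ∩ R₁) \ R₂, b + ∑ b ∈ (Q \ R₁) \ R₂, b) := by abel
        _ = _ := e8
        _ = _ := by abel
    exact add_right_cancel e9
  have hsub1 : insert k ((Q ∩ R₁) \ R₂) ⊆ Q := by
    intro y hy
    rcases Finset.mem_insert.1 hy with hh | hh
    · exact hh ▸ hk
    · exact (Finset.mem_inter.1 (Finset.mem_sdiff.1 hh).1).1
  have hsub2 : ((Q ∩ R₂) \ R₁).erase k ⊆ Q.erase k :=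
    Finset.erase_subset_erase k (Finset.sdiff_subset.trans Finset.inter_subset_left)
  have hc1 : (insert k ((Q ∩ R₁) \ R₂)).card ≤ s := hQs ▸ Finset.card_le_card hsub1
  have hc2 : (insert x (((Q ∩ R₂) \ R₁).erase k)).card ≤ s := by
    have := Finset.card_le_card hsub2
    rw [Finset.card_erase_of_mem hk, hQs] at this
    have h0 : 0 < s := hQs ▸ Finset.card_pos.2 ⟨k, hk⟩
    have h3 := Finset.card_insert_le x (((Q ∩ R₂) \ R₁).erase k)
    omega
  have h8 := uniq h (hsub1.trans hQ)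
    (Finset.insert_subset hxA (hsub2.trans ((Finset.erase_subset _ _).trans hQ))) hc1 hc2 e7
  have h9 : k ∈ insert x (((Q ∩ R₂) \ R₁).erase k) := h8 ▸ Finset.mem_insert_self _ _
  rcases Finset.mem_insert.1 h9 with hh | hh
  · exact hxk hh.symm
  · exact (Finset.mem_erase.1 hh).1 rfl

/-- if all defect sets equal `R`, then `R` has at most one element -/
theorem all_same {s : ℕ} {A : Finset G} (hs : 1 ≤ s)
    (hA : A.card = 2 * s + 1) {i : G} (hi : i ∈ A) {R : Finset G}
    (hR : ∀ Q ⊆ A.erase i, Q.card = s → Rel A i Q R) : R = ∅ ∨ ∃ x ∈ A.erase i, R = {x} := by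
  have hE := card_E hA hi
  have hRE : R ⊆ A.erase i := by
    obtain ⟨Q, hQ, hQs⟩ := Finset.exists_subset_card_eq (show s ≤ (A.erase i).card by omega)
    exact (hR Q hQ hQs).1
  by_cases hc : R.card ≤ 1
  · rcases Finset.card_le_one_iff_subset_singleton.1 hc with ⟨x, hx⟩
    rcases Finset.subset_singleton_iff.1 hx with h | h
    · exact Or.inl h
    · refine Or.inr ⟨x, hRE ?_, h⟩
      rw [h]; exact Finset.mem_singleton_self x
  · exfalso
    obtain ⟨j, hj, k, hk, hjk⟩ := Finset.one_lt_card.1 (not_le.1 hc)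
    obtain ⟨Q, hQ, hQs, hjQ, hkQ⟩ := exists_sub hE hs (hRE hj) (hRE hk) hjk
    have hkQ' : k ∉ Q.erase j := fun h => hkQ (Finset.mem_of_mem_erase h)
    refine swap_false hjQ hkQ hj hk (hR Q hQ hQs).2.1 (hR (insert k (Q.erase j)) ?_ ?_).2.1
    · exact Finset.insert_subset (hRE hk) ((Finset.erase_subset _ _).trans hQ)
    · rw [Finset.card_insert_of_notMem hkQ', Finset.card_erase_of_mem hjQ]
      have : 0 < Q.card := Finset.card_pos.2 ⟨j, hjQ⟩
      omega

/-- if a small and a large defect set occur, the small one is contained in `Q` -/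
theorem small_sub {s : ℕ} {A : Finset G} (h : IsPerfectBasis s A)
    (hA : A.card = 2 * s + 1) {i : G} (hi : i ∈ A) {R₁ R₂ : Finset G}
    (h1 : R₁ ⊆ A.erase i) (h2 : R₂ ⊆ A.erase i) (hc1 : R₁.card ≤ s) (hc2 : s + 1 ≤ R₂.card)
    (he : ∑ b ∈ R₁, b = ∑ b ∈ R₂, b)
    (hall : ∀ Q ⊆ A.erase i, Q.card = s → Rel A i Q R₁ ∨ Rel A i Q R₂)
    {Q : Finset G} (hQ : Q ⊆ A.erase i) (hQs : Q.card = s) (hrel : Rel A i Q R₂) : R₁ ⊆ Q := by
  intro x hx
  by_contra hxQ
  have hE := card_E hA hi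
  have hEA : A.erase i ⊆ A := Finset.erase_subset i A
  -- the set `W = R₂ \ R₁`
  have hW : s + 1 ≤ (R₂ \ R₁).card := by
    by_contra hlt
    have hle : (R₂ \ R₁).card ≤ s := by omega
    have hle' : (R₁ \ R₂).card ≤ s := (Finset.card_le_card Finset.sdiff_subset).trans hc1
    have e1 : ∑ b ∈ R₁ ∩ R₂, b + ∑ b ∈ R₁ \ R₂, b = ∑ b ∈ R₁, b :=
      Finset.sum_inter_add_sum_sdiff R₁ R₂ _
    have e2 : ∑ b ∈ R₂ ∩ R₁, b + ∑ b ∈ R₂ \ R₁, b = ∑ b ∈ R₂, b :=
      Finset.sum_inter_add_sum_sdiff R₂ R₁ _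
    have e3 : ∑ b ∈ R₂ \ R₁, b = ∑ b ∈ R₁ \ R₂, b := by
      rw [Finset.inter_comm R₂ R₁, ← he, ← e1] at e2
      exact add_left_cancel e2
    have hd : Disjoint (R₂ \ R₁) (R₁ \ R₂) := by
      rw [Finset.disjoint_left]
      intro y hy hy'
      exact (Finset.mem_sdiff.1 hy).2 (Finset.mem_sdiff.1 hy').1
    have h3 := disj_eq h (Finset.sdiff_subset.trans (h2.trans hEA))
      (Finset.sdiff_subset.trans (h1.trans hEA)) hle hle' hd e3
    have h4 := Finset.card_le_card (Finset.sdiff_eq_empty_iff_subset.1 h3)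
    omega
  have hWE : R₂ \ R₁ ⊆ A.erase i := Finset.sdiff_subset.trans h2
  have hQW : 2 ≤ (Q ∩ (R₂ \ R₁)).card := by
    have h3 : Q ∪ (R₂ \ R₁) ⊆ (A.erase i).erase x := by
      intro y hy
      rw [Finset.mem_erase]
      rcases Finset.mem_union.1 hy with hh | hh
      · exact ⟨fun e => hxQ (e ▸ hh), hQ hh⟩
      · exact ⟨fun e => (Finset.mem_sdiff.1 hh).2 (e ▸ hx), hWE hh⟩
    have h4 := Finset.card_le_card h3
    rw [Finset.card_erase_of_mem (h1 hx), hE] at h4
    have h5 := Finset.card_union_add_card_inter Q (R₂ \ R₁)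
    have h6 : 0 < 2 * s := hE ▸ Finset.card_pos.2 ⟨x, h1 hx⟩
    omega
  obtain ⟨k, hk, k', hk', hkk⟩ := Finset.one_lt_card.1 hQW
  rw [Finset.mem_inter, Finset.mem_sdiff] at hk hk'
  have key : ∀ y : G, y ∈ Q → y ∈ R₂ → y ∉ R₁ → Rel A i (insert x (Q.erase y)) R₂ := by
    intro y hyQ hy2 hy1
    have hxe : x ∉ Q.erase y := fun h => hxQ (Finset.mem_of_mem_erase h)
    have hs0 : 0 < s := hQs ▸ Finset.card_pos.2 ⟨y, hyQ⟩
    rcases hall (insert x (Q.erase y))
      (Finset.insert_subset (h1 hx) ((Finset.erase_subset _ _).trans hQ))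
      (by rw [Finset.card_insert_of_notMem hxe, Finset.card_erase_of_mem hyQ, hQs]; omega)
      with hh | hh
    · exact (mix_false h (hQ.trans hEA) hQs (hEA (h1 hx)) hxQ hx hyQ hy1 hy2 hrel.2.1 hh.2.1).elim
    · exact hh
  have r1 := key k hk.1 hk.2.1 hk.2.2
  have r2 := key k' hk'.1 hk'.2.1 hk'.2.2
  have hxk : x ≠ k := fun e => hxQ (e ▸ hk.1)
  have hxk' : x ≠ k' := fun e => hxQ (e ▸ hk'.1)
  have hset : insert x (Q.erase k') = insert k ((insert x (Q.erase k)).erase k') := by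
    ext y
    simp only [Finset.mem_insert, Finset.mem_erase]
    constructor
    · rintro (hh | ⟨hh, hh'⟩)
      · exact Or.inr ⟨fun e => hxk' (hh ▸ e), Or.inl hh⟩
      · by_cases hy : y = k
        · exact Or.inl hy
        · exact Or.inr ⟨hh, Or.inr ⟨hy, hh'⟩⟩
    · rintro (hh | ⟨hh, hh' | hh'⟩)
      · exact Or.inr ⟨hh ▸ hkk, hh ▸ hk.1⟩
      · exact Or.inl hh'
      · exact Or.inr ⟨hh, hh'.2⟩
  rw [hset] at r2
  refine swap_false (Q := insert x (Q.erase k)) (j := k') (k := k) ?_ ?_ hk'.2.1 hk.2.1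
    r1.2.1 r2.2.1
  · exact Finset.mem_insert_of_mem (Finset.mem_erase.2 ⟨hkk.symm, hk'.1⟩)
  · intro hh
    rcases Finset.mem_insert.1 hh with e | e
    · exact hxk e.symm
    · exact (Finset.mem_erase.1 e).1 rfl

/-- the dichotomy -/
theorem dichotomy {s : ℕ} {A : Finset G} (h : IsPerfectBasis s A) (hs : 1 ≤ s)
    (hA : A.card = 2 * s + 1) {i : G} (hi : i ∈ A) :
    i + i = 0 ∨ ∃ x ∈ A.erase i, i + i + x = 0 ∧ ∀ k ∈ A.erase i, k ≠ x → k + k = x := by
  have hE := card_E hA hi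
  have hEA : A.erase i ⊆ A := Finset.erase_subset i A
  obtain ⟨Q₀, hQ₀, hQ₀s⟩ := Finset.exists_subset_card_eq (show s ≤ (A.erase i).card by omega)
  obtain ⟨R₀, hR₀⟩ := exists_R h hA hi hQ₀ hQ₀s
  by_cases hall : ∀ Q ⊆ A.erase i, Q.card = s → Rel A i Q R₀
  · rcases all_same hs hA hi hall with h0 | ⟨x, hx, h0⟩
    · left
      have := hR₀.sum hi hQ₀
      rw [h0, Finset.sum_empty, add_zero] at this
      exact this
    · right
      refine ⟨x, hx, ?_, ?_⟩
      · have := hR₀.sum hi hQ₀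
        rw [h0, Finset.sum_singleton] at this
        exact this
      · intro k hk hkx
        -- choose `C`
        have h1 : s - 1 ≤ (((A.erase i).erase x).erase k).card := by
          rw [Finset.card_erase_of_mem, Finset.card_erase_of_mem hx]
          · omega
          · rw [Finset.mem_erase]; exact ⟨hkx, hk⟩
        obtain ⟨C, hC, hCc⟩ := Finset.exists_subset_card_eq h1
        have hxC : x ∉ C := fun h => by
          have := hC h
          simp only [Finset.mem_erase] at this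
          exact this.2.1 rfl
        have hkC : k ∉ C := fun h => by
          have := hC h
          simp only [Finset.mem_erase] at this
          exact this.1 rfl
        have hCE : C ⊆ A.erase i := fun y hy =>
          Finset.mem_of_mem_erase (Finset.mem_of_mem_erase (hC hy))
        have r1 := (hall (insert x C) (Finset.insert_subset hx hCE)
          (by rw [Finset.card_insert_of_notMem hxC, hCc]; omega)).2.1
        have r2 := (hall (insert k C) (Finset.insert_subset hk hCE)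
          (by rw [Finset.card_insert_of_notMem hkC, hCc]; omega)).2.1
        rw [h0] at r1 r2
        have e1 : insert x C \ {x} = C := by
          ext y
          simp only [Finset.mem_sdiff, Finset.mem_insert, Finset.mem_singleton]
          constructor
          · rintro ⟨hh | hh, hh'⟩
            · exact absurd hh hh'
            · exact hh
          · intro hh
            exact ⟨Or.inr hh, fun e => hxC (e ▸ hh)⟩
        have e2 : insert k C \ {x} = insert k C := by
          ext y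
          simp only [Finset.mem_sdiff, Finset.mem_insert, Finset.mem_singleton]
          constructor
          · rintro ⟨hh, -⟩
            exact hh
          · rintro (hh | hh)
            · exact ⟨Or.inl hh, fun e => hkx (hh.symm.trans e)⟩
            · exact ⟨Or.inr hh, fun e => hxC (e ▸ hh)⟩
        rw [e1, Finset.sum_insert hxC] at r1
        rw [e2, Finset.sum_insert hkC] at r2
        have e3 : k + k + (∑ b ∈ C, b + ∑ b ∈ C, b) = x + (∑ b ∈ C, b + ∑ b ∈ C, b) := by
          calc _ = k + ∑ b ∈ C, b + (k + ∑ b ∈ C, b) := by abel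
            _ = ∑ b ∈ A, b := r2
            _ = x + ∑ b ∈ C, b + ∑ b ∈ C, b := r1.symm
            _ = _ := by abel
        exact add_right_cancel e3
  · left
    push Not at hall
    obtain ⟨Q₁, hQ₁, hQ₁s, hn⟩ := hall
    obtain ⟨R₁, hR₁⟩ := exists_R h hA hi hQ₁ hQ₁s
    have hne : R₁ ≠ R₀ := fun e => hn (e ▸ hR₁)
    -- all sums agree
    have hsum : ∀ Q R : Finset G, Q ⊆ A.erase i → Rel A i Q R →
        ∑ b ∈ R, b = -(i + i) := fun Q R hQ hrel => by
      have := hrel.sum hi hQ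
      exact eq_neg_of_add_eq_zero_right this
    -- a small one and a large one
    have main : ∀ (P P' S S' : Finset G), P ⊆ A.erase i → P.card = s → Rel A i P S →
        P' ⊆ A.erase i → P'.card = s → Rel A i P' S' → S.card ≤ s → s + 1 ≤ S'.card →
        i + i = 0 := by
      intro P P' S S' hP hPs hPr hP' hP's hP'r hS hS'
      have hdich : ∀ Q ⊆ A.erase i, Q.card = s → Rel A i Q S ∨ Rel A i Q S' := by
        intro Q hQ hQs
        obtain ⟨R, hR⟩ := exists_R h hA hi hQ hQs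
        by_cases hRc : R.card ≤ s
        · left
          have : R = S := uniq h (hR.1.trans hEA) (hPr.1.trans hEA) hRc hS
            ((hsum Q R hQ hR).trans (hsum P S hP hPr).symm)
          exact this ▸ hR
        · right
          have : R = S' := uniq_large h hA (hR.1.trans hEA) (hP'r.1.trans hEA) (by omega) hS'
            ((hsum Q R hQ hR).trans (hsum P' S' hP' hP'r).symm)
          exact this ▸ hR
      have he : ∑ b ∈ S, b = ∑ b ∈ S', b := (hsum P S hP hPr).trans (hsum P' S' hP' hP'r).symm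
      have s1 := small_sub h hA hi hPr.1 hP'r.1 hS hS' he hdich hP' hP's hP'r
      have s2 := small_sub h hA hi hPr.1 hP'r.1 hS hS' he hdich (Q := A.erase i \ P')
        Finset.sdiff_subset (by rw [Finset.card_sdiff_of_subset hP']; omega) (hP'r.compl hP')
      have hS0 : S = ∅ := by
        rw [Finset.eq_empty_iff_forall_notMem]
        intro y hy
        exact (Finset.mem_sdiff.1 (s2 hy)).2 (s1 hy)
      have := hPr.sum hi hP
      rw [hS0, Finset.sum_empty, add_zero] at this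
      exact this
    rcases Nat.lt_or_ge s R₀.card with hc0 | hc0
    · rcases Nat.lt_or_ge s R₁.card with hc1 | hc1
      · exact absurd (uniq_large h hA (hR₁.1.trans hEA) (hR₀.1.trans hEA) hc1 hc0
          ((hsum Q₁ R₁ hQ₁ hR₁).trans (hsum Q₀ R₀ hQ₀ hR₀).symm)) hne
      · exact main Q₁ Q₀ R₁ R₀ hQ₁ hQ₁s hR₁ hQ₀ hQ₀s hR₀ hc1 hc0
    · rcases Nat.lt_or_ge s R₁.card with hc1 | hc1
      · exact main Q₀ Q₁ R₀ R₁ hQ₀ hQ₀s hR₀ hQ₁ hQ₁s hR₁ hc0 hc1
      · exact absurd (uniq h (hR₁.1.trans hEA) (hR₀.1.trans hEA) hc1 hc0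
          ((hsum Q₁ R₁ hQ₁ hR₁).trans (hsum Q₀ R₀ hQ₀ hR₀).symm)) hne

end MPc73f8e
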