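import Mathlib

/-!
# Two structure theorems for finite abelian 2-groups
-/

namespace MPc73f8e

/-- elementary abelian group of order `2^n` -/
theorem elementary {G : Type*} [AddCommGroup G] [Finite G] {n : ℕ} (h2 : ∀ g : G, g + g = 0)
    (hc : Nat.card G = 2 ^ n) : Nonempty (G ≃+ (Fin n → ZMod 2)) := by
  let _ : Module (ZMod 2) G := AddCommGroup.zmodModule (n := 2) (fun g => by
    rw [two_nsmul]; exact h2 g)
  have : Module.Finite (ZMod 2) G := Module.Finite.of_finite
  have h1 : Nat.card G = Nat.card (ZMod 2) ^ Module.finrank (ZMod 2) G :=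
    Module.natCard_eq_pow_finrank
  rw [Nat.card_zmod, hc] at h1
  have h3 : Module.finrank (ZMod 2) G = n := (Nat.pow_right_injective le_rfl h1).symm
  have e := (Module.finBasisOfFinrankEq (ZMod 2) G h3).equivFun
  exact ⟨e.toAddEquiv⟩

theorem mixed {G : Type*} [AddCommGroup G] [Finite G] {n : ℕ} {x b : G} (hx : x ≠ 0)
    (hxx : x + x = 0) (hb : b + b = x) (h2 : ∀ g : G, g + g = 0 ∨ g + g = x)
    (hc : Nat.card G = 2 ^ (n + 2)) : Nonempty (G ≃+ (Fin n → ZMod 2) × ZMod 4) := by
  classical
  -- the doubling map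
  let D : G →+ G := nsmulAddMonoidHom 2
  have hD : ∀ g, D g = g + g := fun g => by
    simp only [D, nsmulAddMonoidHom_apply, two_nsmul]
  -- its range
  have hR : Nat.card D.range = 2 := by
    have : (D.range : Set G) = {0, x} := by
      ext g
      simp only [AddMonoidHom.coe_range, Set.mem_range, Set.mem_insert_iff, Set.mem_singleton_iff]
      constructor
      · rintro ⟨y, rfl⟩
        rw [hD]
        exact h2 y
      · rintro (h | h)
        · exact ⟨0, by rw [h, map_zero]⟩
        · exact ⟨b, by rw [hD, hb, h]⟩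
    have h1 : Nat.card D.range = Nat.card (D.range : Set G) := rfl
    rw [h1, this, Nat.card_coe_set_eq, Set.ncard_pair hx.symm]
  have hK : Nat.card D.ker = 2 ^ (n + 1) := by
    have h1 := AddSubgroup.card_eq_card_quotient_mul_card_addSubgroup D.ker
    have h3 : Nat.card (G ⧸ D.ker) = Nat.card D.range :=
      Nat.card_congr (QuotientAddGroup.quotientKerEquivRange D).toEquiv
    rw [h3, hR, hc, pow_succ 2 (n + 1), mul_comm] at h1
    exact (mul_left_cancel₀ two_ne_zero h1).symm
  -- the kernel is a vector space over `ZMod 2`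
  let _ : Module (ZMod 2) D.ker := AddCommGroup.zmodModule (n := 2) (fun g => by
    have : D g.1 = 0 := g.2
    rw [hD] at this
    ext
    rw [two_nsmul]
    exact this)
  have : Module.Finite (ZMod 2) D.ker := Module.Finite.of_finite
  have h1 : Nat.card D.ker = Nat.card (ZMod 2) ^ Module.finrank (ZMod 2) D.ker :=
    Module.natCard_eq_pow_finrank
  rw [Nat.card_zmod, hK] at h1
  have h3 : Module.finrank (ZMod 2) D.ker = n + 1 := (Nat.pow_right_injective le_rfl h1).symm
  have hxK : x ∈ D.ker := by
    rw [AddMonoidHom.mem_ker, hD, hxx]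
  let y : D.ker := ⟨x, hxK⟩
  have hy : y ≠ 0 := fun h => hx (congrArg Subtype.val h)
  obtain ⟨V, hV⟩ := Submodule.exists_isCompl (ZMod 2 ∙ y)
  have h4 : Module.finrank (ZMod 2) V = n := by
    have h5 := Submodule.finrank_add_eq_of_isCompl hV
    rw [finrank_span_singleton hy, h3] at h5
    omega
  have eV := (Module.finBasisOfFinrankEq (ZMod 2) V h4).equivFun
  -- the map
  have hb4 : (zmultiplesHom G b) ((4 : ℕ) : ℤ) = 0 := by
    rw [zmultiplesHom_apply]
    have : ((4 : ℕ) : ℤ) • b = (b + b) + (b + b) := by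
      rw [natCast_zsmul]
      have : (4 : ℕ) = 2 * 2 := rfl
      rw [this, mul_nsmul, two_nsmul, two_nsmul]
    rw [this, hb, hxx]
  let β : ZMod 4 →+ G := ZMod.lift 4 ⟨zmultiplesHom G b, hb4⟩
  have hβ1 : β 1 = b := by
    have := ZMod.lift_coe 4 ⟨zmultiplesHom G b, hb4⟩ 1
    simp only [Int.cast_one] at this
    rw [show β 1 = (ZMod.lift 4 ⟨zmultiplesHom G b, hb4⟩) 1 from rfl, this]
    simp
  have hβ2 : β 2 = x := by
    rw [show (2 : ZMod 4) = 1 + 1 from rfl, map_add, hβ1, hb]
  have hβ3 : β 3 = x + b := by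
    rw [show (3 : ZMod 4) = 2 + 1 from rfl, map_add, hβ1, hβ2]
  let ι : V →+ G := D.ker.subtype.comp V.subtype.toAddMonoidHom
  let Φ : V × ZMod 4 →+ G := AddMonoidHom.coprod ι β
  have hΦ : Function.Injective Φ := by
    rw [injective_iff_map_eq_zero]
    rintro ⟨v, m⟩ hvm
    have h6 : ι v + β m = 0 := hvm
    have hvv : ι v + ι v = 0 := by
      rw [← hD]
      exact (v : D.ker).2
    have h7 : β m + β m = 0 := by
      have : ι v + β m + (ι v + β m) = 0 := by rw [h6, add_zero]
      have h8 : ι v + β m + (ι v + β m) = (ι v + ι v) + (β m + β m) := by abel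
      rw [h8, hvv, zero_add] at this
      exact this
    have hι : ι v = 0 → v = 0 := fun h => by
      have h9 : ((v : D.ker) : G) = 0 := h
      have h10 : (v : D.ker) = 0 := Subtype.ext h9
      exact Subtype.ext h10
    have hm4 : ∀ m : ZMod 4, m = 0 ∨ m = 1 ∨ m = 2 ∨ m = 3 := by decide
    have hm := hm4 m
    rcases hm with hm | hm | hm | hm
    · subst hm
      rw [map_zero, add_zero] at h6
      rw [hι h6]
      rfl
    · exfalso
      rw [hm, hβ1, hb] at h7
      exact hx h7
    · exfalso
      rw [hm, hβ2] at h6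
      -- then `v = -x = x`
      have h9 : ι v = x := by
        have : ι v = -x := eq_neg_of_add_eq_zero_left h6
        rw [this]
        exact (neg_eq_of_add_eq_zero_left hxx)
      have h10 : (v : D.ker) = y := Subtype.ext h9
      have h11 : (v : D.ker) ∈ (ZMod 2 ∙ y) ⊓ V := by
        refine ⟨?_, v.2⟩
        rw [h10]
        exact Submodule.mem_span_singleton_self y
      rw [hV.inf_eq_bot, Submodule.mem_bot, h10] at h11
      exact hy h11
    · exfalso
      rw [hm, hβ3] at h7
      have h8 : x + b + (x + b) = (x + x) + (b + b) := by abel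
      rw [h8, hxx, hb, zero_add] at h7
      exact hx h7
  have hcard : Nat.card (V × ZMod 4) = Nat.card G := by
    have h5 : Nat.card V = 2 ^ n := by
      have h6 : Nat.card V = Nat.card (ZMod 2) ^ Module.finrank (ZMod 2) V :=
        Module.natCard_eq_pow_finrank
      rw [h6, Nat.card_zmod, h4]
    rw [Nat.card_prod, h5, Nat.card_zmod, hc, pow_add]
    norm_num
  have hbij : Function.Bijective Φ :=
    (Nat.bijective_iff_injective_and_card Φ).2 ⟨hΦ, hcard⟩
  let e1 : V × ZMod 4 ≃+ G := AddEquiv.ofBijective Φ hbij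
  exact ⟨e1.symm.trans (AddEquiv.prodCongr eV.toAddEquiv (AddEquiv.refl (ZMod 4)))⟩

end MPc73f8e
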