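import Mathlib
import Pool.Agent.Work.MP_c73f8e_nt.Defs
import Pool.Agent.Work.MP_c73f8e_nt.Core
import Pool.Agent.Work.MP_c73f8e_nt.Dich
import Pool.Agent.Work.MP_c73f8e_nt.Struct

/-!
# The order of the group and the final classification
-/

namespace MPc73f8e

open Finset

variable {G : Type*} [AddCommGroup G] [DecidableEq G]

/-- the family of the subsets of `A` with at most `s` elements -/
theorem card_small {α : Type*} [DecidableEq α] {A : Finset α} {s : ℕ} (hA : A.card = 2 * s + 1) :
    (A.powerset.filter (fun B => B.card ≤ s)).card = 4 ^ s := by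
  rw [Finset.card_eq_sum_card_fiberwise (f := Finset.card) (t := Finset.range (s + 1))]
  · rw [← Nat.sum_range_choose_halfway s]
    apply Finset.sum_congr rfl
    intro j hj
    rw [← hA, ← Finset.card_powersetCard]
    congr 1
    ext B
    simp only [Finset.mem_filter, Finset.mem_powerset, Finset.mem_powersetCard]
    have := Finset.mem_range.1 hj
    constructor
    · rintro ⟨⟨h1, h2⟩, h3⟩
      exact ⟨h1, h3⟩
    · rintro ⟨h1, h3⟩
      exact ⟨⟨h1, by omega⟩, h3⟩
  · intro B hB
    rw [Finset.mem_coe, Finset.mem_filter] at hB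
    rw [Finset.mem_coe, Finset.mem_range]
    omega

theorem card_group {s : ℕ} {A : Finset G} (h : IsPerfectBasis s A) (hA : A.card = 2 * s + 1) :
    Finite G ∧ Nat.card G = 4 ^ s := by
  let F : Finset (Finset G) := A.powerset.filter (fun B => B.card ≤ s)
  let f : F → G := fun B => ∑ b ∈ B.1, b
  have hf : Function.Bijective f := by
    constructor
    · rintro ⟨B, hB⟩ ⟨C, hC⟩ he
      rw [Finset.mem_filter, Finset.mem_powerset] at hB hC
      exact Subtype.ext (uniq h hB.1 hC.1 hB.2 hC.2 he)
    · intro g
      obtain ⟨B, ⟨h1, h2, h3⟩, -⟩ := h g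
      exact ⟨⟨B, by rw [Finset.mem_filter, Finset.mem_powerset]; exact ⟨h1, h2⟩⟩, h3⟩
  refine ⟨Finite.of_surjective f hf.2, ?_⟩
  rw [← Nat.card_eq_of_bijective f hf, Nat.card_eq_fintype_card, Fintype.card_coe]
  exact card_small hA

theorem zero_notMem {s : ℕ} {A : Finset G} (h : IsPerfectBasis s A) (hs : 1 ≤ s) {x : G}
    (hx : x ∈ A) : x ≠ 0 := by
  intro h0
  have h1 : ({x} : Finset G) = ∅ := by
    apply uniq h (Finset.singleton_subset_iff.2 hx) (Finset.empty_subset A)
    · rw [Finset.card_singleton]; exact hs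
    · rw [Finset.card_empty]; exact Nat.zero_le s
    · rw [Finset.sum_singleton, Finset.sum_empty, h0]
  exact absurd h1 (Finset.singleton_ne_empty x)

/-- the global dichotomy -/
theorem global {s : ℕ} {A : Finset G} (h : IsPerfectBasis s A) (hs : 1 ≤ s)
    (hA : A.card = 2 * s + 1) :
    (∀ a ∈ A, a + a = 0) ∨
      ∃ x ∈ A, x + x = 0 ∧ (∀ a ∈ A, a ≠ x → a + a = x) ∧ ∃ a ∈ A, a ≠ x := by
  by_cases hall : ∀ a ∈ A, a + a = 0
  · exact Or.inl hall
  right
  push Not at hall
  obtain ⟨i, hi, hi0⟩ := hall
  rcases dichotomy h hs hA hi with h0 | ⟨x, hx, h1, h2⟩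
  · exact absurd h0 hi0
  have hxA : x ∈ A := Finset.mem_of_mem_erase hx
  have hxi : x ≠ i := (Finset.mem_erase.1 hx).1
  have hx0 : x ≠ 0 := zero_notMem h hs hxA
  -- it suffices to see that `x + x = 0`
  have hxx : x + x = 0 := by
    rcases Nat.lt_or_ge s 2 with hs2 | hs2
    · -- `s = 1`
      have hs1 : s = 1 := by omega
      obtain ⟨hfin, hcard⟩ := card_group h hA
      rw [hs1, pow_one] at hcard
      have h3 : (4 : ℕ) • i = 0 := by
        rw [← hcard]
        exact card_nsmul_eq_zero'
      have h4 : x = -(i + i) := eq_neg_of_add_eq_zero_right h1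
      have h5 : (4 : ℕ) • i = (i + i) + (i + i) := by
        have : (4 : ℕ) = 2 * 2 := rfl
        rw [this, mul_nsmul, two_nsmul, two_nsmul]
      rw [h5] at h3
      rw [h4, ← neg_add, h3, neg_zero]
    · -- pick a third element
      have hc : 0 < ((A.erase i).erase x).card := by
        rw [Finset.card_erase_of_mem hx, Finset.card_erase_of_mem hi]
        omega
      obtain ⟨k, hk⟩ := Finset.card_pos.1 hc
      have hkx : k ≠ x := (Finset.mem_erase.1 hk).1
      have hk' : k ∈ A.erase i := Finset.mem_of_mem_erase hk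
      have hkA : k ∈ A := Finset.mem_of_mem_erase hk'
      have hkk : k + k = x := h2 k hk' hkx
      rcases dichotomy h hs hA hkA with h0 | ⟨y, hy, h3, h4⟩
      · exact absurd (hkk.symm.trans h0) hx0
      · have hyA : y ∈ A := Finset.mem_of_mem_erase hy
        rw [hkk] at h3
        by_cases hxy : x = y
        · rw [← hxy] at h3
          exact h3
        · exfalso
          have h5 : ({x, y} : Finset G) = ∅ := by
            apply uniq h _ (Finset.empty_subset A)
            · rw [Finset.card_pair hxy]; exact hs2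
            · rw [Finset.card_empty]; exact Nat.zero_le s
            · rw [Finset.sum_pair hxy, Finset.sum_empty, h3]
            · intro z hz
              rcases Finset.mem_insert.1 hz with e | e
              · rw [e]; exact hxA
              · rw [Finset.mem_singleton.1 e]; exact hyA
          exact absurd h5 (Finset.insert_ne_empty x {y})
  refine ⟨x, hxA, hxx, ?_, i, hi, hxi.symm⟩
  intro a ha hax
  by_cases hai : a = i
  · rw [hai]
    have h4 : i + i = -x := eq_neg_of_add_eq_zero_left h1
    rw [h4]
    exact neg_eq_of_add_eq_zero_left hxx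
  · exact h2 a (Finset.mem_erase.2 ⟨hai, ha⟩) hax

theorem sum_double {B : Finset G} : ∑ b ∈ B, b + ∑ b ∈ B, b = ∑ b ∈ B, (b + b) :=
  (Finset.sum_add_distrib).symm

/-- **Classification.** -/
theorem classification {s : ℕ} {A : Finset G} (h : IsPerfectBasis s A) (hs : 1 ≤ s)
    (hA : A.card = 2 * s + 1) :
    Nonempty (G ≃+ (Fin (2 * s) → ZMod 2)) ∨
      Nonempty (G ≃+ (Fin (2 * s - 2) → ZMod 2) × ZMod 4) := by
  obtain ⟨hfin, hcard⟩ := card_group h hA
  have h4 : (4 : ℕ) ^ s = 2 ^ (2 * s) := by
    rw [pow_mul]; norm_num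
  rw [h4] at hcard
  rcases global h hs hA with hall | ⟨x, hxA, hxx, hall, a, ha, hax⟩
  · left
    apply elementary _ hcard
    intro g
    obtain ⟨B, ⟨h1, h2, h3⟩, -⟩ := h g
    rw [← h3, sum_double]
    exact Finset.sum_eq_zero (fun b hb => hall b (h1 hb))
  · right
    have hx0 : x ≠ 0 := zero_notMem h hs hxA
    have h2s : 2 * s = (2 * s - 2) + 2 := by omega
    apply mixed hx0 hxx (hall a ha hax) _ (by rw [hcard]; exact congrArg _ h2s)
    intro g
    obtain ⟨B, ⟨h1, h2, h3⟩, -⟩ := h g
    rw [← h3, sum_double]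
    have hmem : ∀ b ∈ B, b + b = 0 ∨ b + b = x := by
      intro b hb
      by_cases hbx : b = x
      · left; rw [hbx, hxx]
      · right; exact hall b (h1 hb) hbx
    clear h3 h2 h1
    induction B using Finset.induction_on with
    | empty => left; exact Finset.sum_empty
    | insert c C hc ih =>
      rw [Finset.sum_insert hc]
      have ih' := ih (fun b hb => hmem b (Finset.mem_insert_of_mem hb))
      rcases hmem c (Finset.mem_insert_self c C) with e | e
      · rw [e, zero_add]; exact ih'
      · rcases ih' with e' | e'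
        · right; rw [e, e', add_zero]
        · left; rw [e, e', hxx]

end MPc73f8e
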